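import Pool.Agent.K1H80.KA.Stm

/-! Project KA, piece MERGE: merging two linear orders. -/

set_option autoImplicit false

namespace Pool.Agent.K1H89.KA

open Pool.Agent.KA

section
variable {α ι : Type} [DecidableEq α] [Fintype ι]

/-- `inn` as a homomorphism -/
def innH (a b : ι → α) (A : Finset α) : (ι → ℤ) →+ ℤ where
  toFun := inn a b A
  map_zero' := by simp [inn]
  map_add' c c' := by
    unfold inn
    rw [← Finset.sum_add_distrib]
    refine Finset.sum_congr rfl fun e _ => ?_
    split_ifs <;> simp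

theorem innH_apply (a b : ι → α) (A : Finset α) (c : ι → ℤ) : innH a b A c = inn a b A c := rfl

/-- `Cond` as a subgroup -/
def CS (a b : ι → α) : List α → AddSubgroup (ι → ℤ)
  | [] => ⊤
  | x :: l => (innH a b (x :: l).toFinset).ker ⊓ CS a b l

theorem mem_CS (a b : ι → α) (l : List α) (c : ι → ℤ) : c ∈ CS a b l ↔ Cond a b l c := by
  induction l with
  | nil => simp [CS, Cond]
  | cons x l ih =>
    unfold CS Cond
    rw [AddSubgroup.mem_inf, AddMonoidHom.mem_ker, ih]
    rfl

theorem cond_inn (a b : ι → α) {l : List α} (hl : l ≠ []) {c : ι → ℤ} (h : Cond a b l c) :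
    inn a b l.toFinset c = 0 := by
  cases l with
  | nil => exact absurd rfl hl
  | cons x l => exact h.1

theorem inn_single (a b : ι → α) (hab : ∀ e, a e ≠ b e) (x : α) (c : ι → ℤ) :
    inn a b {x} c = 0 := by
  unfold inn
  refine Finset.sum_eq_zero fun e _ => ?_
  rw [if_neg]
  rintro ⟨h1, h2⟩
  rw [Finset.mem_singleton] at h1 h2
  exact hab e (h1.trans h2.symm)

theorem inn_three (a b : ι → α) (A B C : Finset α) (hAB : Disjoint A B) (hAC : Disjoint A C)
    (hBC : Disjoint B C) (c : ι → ℤ) :
    inn a b (A ∪ B ∪ C) c + inn a b A c + inn a b B c + inn a b C c =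
      inn a b (A ∪ B) c + inn a b (A ∪ C) c + inn a b (B ∪ C) c := by
  unfold inn
  rw [← Finset.sum_add_distrib, ← Finset.sum_add_distrib, ← Finset.sum_add_distrib,
    ← Finset.sum_add_distrib, ← Finset.sum_add_distrib]
  refine Finset.sum_congr rfl fun e _ => ?_
  have key : ∀ p : α, (p ∈ A ∧ p ∉ B ∧ p ∉ C) ∨ (p ∉ A ∧ p ∈ B ∧ p ∉ C) ∨
      (p ∉ A ∧ p ∉ B ∧ p ∈ C) ∨ (p ∉ A ∧ p ∉ B ∧ p ∉ C) := by
    intro p
    by_cases h1 : p ∈ A
    · exact Or.inl ⟨h1, Finset.disjoint_left.1 hAB h1, Finset.disjoint_left.1 hAC h1⟩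
    · by_cases h2 : p ∈ B
      · exact Or.inr (Or.inl ⟨h1, h2, Finset.disjoint_left.1 hBC h2⟩)
      · by_cases h3 : p ∈ C
        · exact Or.inr (Or.inr (Or.inl ⟨h1, h2, h3⟩))
        · exact Or.inr (Or.inr (Or.inr ⟨h1, h2, h3⟩))
  simp only [Finset.mem_union]
  rcases key (a e) with ⟨h1, h2, h3⟩ | ⟨h1, h2, h3⟩ | ⟨h1, h2, h3⟩ | ⟨h1, h2, h3⟩ <;>
    rcases key (b e) with ⟨k1, k2, k3⟩ | ⟨k1, k2, k3⟩ | ⟨k1, k2, k3⟩ | ⟨k1, k2, k3⟩ <;>
      simp [h1, h2, h3, k1, k2, k3]

theorem merge_aux (a b : ι → α) (hab : ∀ e, a e ≠ b e) : ∀ l₁ l₂ : List α, l₁ ≠ [] → l₂ ≠ [] →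
    (l₁ ++ l₂).Nodup → ∀ W : AddSubgroup (ι → ℤ),
      (∀ c ∈ W, Cond a b l₁ c → Cond a b l₂ c → inn a b (l₁ ++ l₂).toFinset c = 0 → c = 0) →
      ∃ l : List α, l.Perm (l₁ ++ l₂) ∧ ∀ c ∈ W, Cond a b l c → c = 0 := by
  intro l₁
  induction l₁ with
  | nil => intro l₂ h; exact absurd rfl h
  | cons x A ih =>
    intro B _ hB hnd W hW
    by_cases hA : A = []
    · subst hA
      refine ⟨x :: B, List.Perm.refl _, fun c hc hcond => hW c hc ?_ hcond.2 hcond.1⟩
      refine ⟨?_, trivial⟩
      have h1 : ([x] : List α).toFinset = {x} := by simp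
      rw [h1]
      exact inn_single a b hab x c
    · have hnd' : x ∉ A ++ B ∧ (A ++ B).Nodup := List.nodup_cons.1 hnd
      have hxA : x ∉ A := fun h => hnd'.1 (List.mem_append_left _ h)
      have hxB : x ∉ B := fun h => hnd'.1 (List.mem_append_right _ h)
      have hdisj : List.Disjoint A B := List.disjoint_of_nodup_append hnd'.2
      have hp : (A ++ x :: B).Perm (x :: (A ++ B)) := List.perm_middle
      have star : ∀ c, inn a b (x :: (A ++ B)).toFinset c + inn a b A.toFinset c +
          inn a b B.toFinset c = inn a b (x :: A).toFinset c + inn a b (x :: B).toFinset c +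
            inn a b (A ++ B).toFinset c := by
        intro c
        have h1 := inn_three a b {x} A.toFinset B.toFinset
          (Finset.disjoint_singleton_left.2 (by rwa [List.mem_toFinset]))
          (Finset.disjoint_singleton_left.2 (by rwa [List.mem_toFinset]))
          (by
            rw [Finset.disjoint_left]
            intro p hpA hpB
            rw [List.mem_toFinset] at hpA hpB
            exact hdisj hpA hpB) c
        rw [inn_single a b hab x c, add_zero] at h1
        have e1 : (x :: (A ++ B)).toFinset = {x} ∪ A.toFinset ∪ B.toFinset := by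
          rw [List.toFinset_cons, List.toFinset_append, Finset.insert_eq, Finset.union_assoc]
        have e2 : (x :: A).toFinset = {x} ∪ A.toFinset := by
          rw [List.toFinset_cons, Finset.insert_eq]
        have e3 : (x :: B).toFinset = {x} ∪ B.toFinset := by
          rw [List.toFinset_cons, Finset.insert_eq]
        have e4 : (A ++ B).toFinset = A.toFinset ∪ B.toFinset := List.toFinset_append
        rw [e1, e2, e3, e4]
        exact h1
      by_cases hAlt : ∀ c ∈ W, inn a b (x :: (A ++ B)).toFinset c = 0 → Cond a b A c →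
          Cond a b B c → inn a b (x :: B).toFinset c = 0 → c = 0
      · obtain ⟨l, hl, hl'⟩ := ih (x :: B) hA (List.cons_ne_nil _ _) (hp.nodup_iff.2 hnd) W (by
          intro c hc hcA hcB hcT
          refine hAlt c hc ?_ hcA hcB.2 hcB.1
          rw [← List.toFinset_eq_of_perm _ _ hp]
          exact hcT)
        exact ⟨l, hl.trans hp, hl'⟩
      · have hAlt2 : ∀ c ∈ W, inn a b (x :: (A ++ B)).toFinset c = 0 → Cond a b A c →
            Cond a b B c → inn a b (A ++ B).toFinset c = 0 → c = 0 := by
          intro c' hc' hT' hA' hB' hF'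
          by_contra hne'
          push Not at hAlt
          obtain ⟨c, hc, hT, hcA, hcB, hF, hne⟩ := hAlt
          have hm : inn a b (x :: A).toFinset c ≠ 0 := fun h0 => hne (hW c hc ⟨h0, hcA⟩ hcB hT)
          have hm' : inn a b (x :: A).toFinset c' ≠ 0 := fun h0 =>
            hne' (hW c' hc' ⟨h0, hA'⟩ hB' hT')
          obtain ⟨m, hmd⟩ : ∃ m, m = inn a b (x :: A).toFinset c := ⟨_, rfl⟩
          obtain ⟨m', hmd'⟩ : ∃ m, m = inn a b (x :: A).toFinset c' := ⟨_, rfl⟩
          have hlin : ∀ S : Finset α, inn a b S (m' • c - m • c') =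
              m' * inn a b S c - m * inn a b S c' := by
            intro S
            rw [← innH_apply, map_sub, map_zsmul, map_zsmul, innH_apply, innH_apply,
              smul_eq_mul, smul_eq_mul]
          have hd : m' • c - m • c' = 0 := by
            refine hW _ (W.sub_mem (W.zsmul_mem hc m') (W.zsmul_mem hc' m)) ⟨?_, ?_⟩ ?_ ?_
            · rw [hlin, ← hmd, ← hmd']
              ring
            · rw [← mem_CS] at hcA hA' ⊢
              exact (CS a b A).sub_mem ((CS a b A).zsmul_mem hcA m')
                ((CS a b A).zsmul_mem hA' m)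
            · rw [← mem_CS] at hcB hB' ⊢
              exact (CS a b B).sub_mem ((CS a b B).zsmul_mem hcB m')
                ((CS a b B).zsmul_mem hB' m)
            · change inn a b (x :: (A ++ B)).toFinset _ = 0
              rw [hlin, hT, hT']
              ring
          have h3 := hlin (A ++ B).toFinset
          rw [hd, hF', mul_zero, sub_zero] at h3
          have h4 : inn a b (A ++ B).toFinset (0 : ι → ℤ) = 0 := (innH a b _).map_zero
          rw [h4] at h3
          have h5 : inn a b (A ++ B).toFinset c = 0 := by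
            rcases mul_eq_zero.1 h3.symm with h6 | h6
            · exact absurd (hmd'.symm.trans h6) hm'
            · exact h6
          have h6 := star c
          rw [hT, cond_inn a b hA hcA, cond_inn a b hB hcB, hF, h5] at h6
          apply hm
          linarith
        obtain ⟨l, hl, hl'⟩ := ih B hA hB hnd'.2
          (W ⊓ (innH a b (x :: (A ++ B)).toFinset).ker) (by
            intro c hc hcA hcB hcF
            rw [AddSubgroup.mem_inf, AddMonoidHom.mem_ker] at hc
            exact hAlt2 c hc.1 hc.2 hcA hcB hcF)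
        refine ⟨x :: l, hl.cons x, fun c hc hcond => hl' c ?_ hcond.2⟩
        rw [AddSubgroup.mem_inf, AddMonoidHom.mem_ker]
        refine ⟨hc, ?_⟩
        rw [innH_apply, ← List.toFinset_eq_of_perm _ _ (hl.cons x)]
        exact hcond.1

end

theorem merge : MERGEStm := by
  intro α ι _ _ a b hab l₁ l₂ h1 h2 hnd W hW
  exact merge_aux a b hab l₁ l₂ h1 h2 hnd W hW

end Pool.Agent.K1H89.KA
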