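import Pool.Agent.K1H80.KA.StmC

/-! Project KA, piece KC-ALG: a subfield closed under square roots which contains the binomials
contains the variables. -/

set_option autoImplicit false

namespace Pool.Agent.K1H89.KC

open Pool.Agent.KA

theorem gen_swap {V W L : Type} [Field L] {x : V → W → L} (hx : Gen x) :
    Gen (fun k i => x i k) where
  ne i k := hx.ne k i
  two i j k l hij hkl := by
    have h := hx.two k l i j hkl hij
    intro h0
    apply h
    linear_combination h0
  three a b ha hb := by
    have h := hx.three b a hb ha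
    rw [← Matrix.det_transpose] at h
    exact h

theorem exists_other {V : Type} [DecidableEq V] {G : SimpleGraph V} {A : Finset V}
    (hA : Built G A) (k : V) : ∃ l ∈ A, l ≠ k := by
  have key : ∃ p ∈ A, ∃ q ∈ A, p ≠ q := by
    induction hA with
    | tri a b c hab hbc hac =>
      exact ⟨a, by simp, b, by simp, hab.ne⟩
    | ext A v a b hA hv ha hb hab h1 h2 ih =>
      exact ⟨a, Finset.mem_insert_of_mem ha, b, Finset.mem_insert_of_mem hb, hab⟩
  obtain ⟨p, hp, q, hq, hpq⟩ := key
  by_cases h : p = k
  · exact ⟨q, hq, fun h' => hpq (h.trans h'.symm)⟩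
  · exact ⟨p, hp, h⟩

theorem step (hC : CONStm) {V W L : Type} [DecidableEq W] [Field L] {x : V → W → L} (hx : Gen x)
    (E : Subfield L) (H : SimpleGraph W) (B : Finset W) (hB : Built H B) (v a b : V) (hab : a ≠ b)
    (hva : ∀ k l, H.Adj k l → x v k * x a l - x v l * x a k ∈ E)
    (hvb : ∀ k l, H.Adj k l → x v k * x b l - x v l * x b k ∈ E)
    (ha : ∀ k ∈ B, x a k ∈ E) (hb : ∀ k ∈ B, x b k ∈ E) : ∀ k ∈ B, x v k ∈ E := by
  have gen : ∀ c : V, (∀ k l, H.Adj k l → x v k * x c l - x v l * x c k ∈ E) →
      (∀ k ∈ B, x c k ∈ E) → ∀ k ∈ B, ∀ l ∈ B, x v l / x c l - x v k / x c k ∈ E := by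
    intro c hvc hc k hk l hl
    have h1 := hC W H B hB (L ⧸ E.toSubring.toAddSubgroup)
      (fun k => ((x v k / x c k : L) : L ⧸ E.toSubring.toAddSubgroup)) (by
        intro k hk l hl hkl
        rw [QuotientAddGroup.eq]
        change -(x v k / x c k) + x v l / x c l ∈ E
        have e : -(x v k / x c k) + x v l / x c l =
            -(x v k * x c l - x v l * x c k) / (x c k * x c l) := by
          have h1 := hx.ne c k
          have h2 := hx.ne c l
          field_simp
          ring
        rw [e]
        exact div_mem (neg_mem (hvc k l hkl)) (mul_mem (hc k hk) (hc l hl))) k hk l hl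
    rw [QuotientAddGroup.eq] at h1
    change -(x v k / x c k) + x v l / x c l ∈ E at h1
    rwa [neg_add_eq_sub] at h1
  intro k hk
  obtain ⟨l, hl, hlk⟩ := exists_other hB k
  have h1 := gen a hva ha k hk l hl
  have h2 := gen b hvb hb k hk l hl
  have hD := hx.two a b l k hab hlk
  have nak := hx.ne a k
  have nal := hx.ne a l
  have nbk := hx.ne b k
  have nbl := hx.ne b l
  have e : x v k / x a k = ((x v l / x b l - x v k / x b k) * x b l * x b k -
      (x v l / x a l - x v k / x a k) * x a l * x b k) / (x a l * x b k - x a k * x b l) := by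
    rw [eq_div_iff hD]
    field_simp
    ring
  have h3 : x v k / x a k ∈ E := by
    rw [e]
    exact div_mem (sub_mem (mul_mem (mul_mem h2 (hb l hl)) (hb k hk))
      (mul_mem (mul_mem h1 (ha l hl)) (hb k hk)))
      (sub_mem (mul_mem (ha l hl) (hb k hk)) (mul_mem (ha k hk) (hb l hl)))
  have h4 : x v k = x v k / x a k * x a k := by field_simp
  rw [h4]
  exact mul_mem h3 (ha k hk)

theorem adj_mem {L : Type} [Field L] (E : Subfield L) (M : Matrix (Fin 3) (Fin 3) L)
    (h : ∀ s s' t t', s ≠ s' → t ≠ t' → M s t * M s' t' - M s t' * M s' t ∈ E) :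
    ∀ i j, M.adjugate i j ∈ E := by
  intro i j
  rw [Matrix.adjugate_fin_three]
  have h0 := h 1 2 1 2 (by decide) (by decide)
  have h1 := neg_mem (h 0 2 1 2 (by decide) (by decide))
  have h2 := h 0 1 1 2 (by decide) (by decide)
  have h3 := neg_mem (h 1 2 0 2 (by decide) (by decide))
  have h4 := h 0 2 0 2 (by decide) (by decide)
  have h5 := neg_mem (h 0 1 0 2 (by decide) (by decide))
  have h6 := h 1 2 0 1 (by decide) (by decide)
  have h7 := neg_mem (h 0 2 0 1 (by decide) (by decide))
  have h8 := h 0 1 0 1 (by decide) (by decide)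
  fin_cases i <;> fin_cases j <;> simp
  · exact h0
  · convert h1 using 1; ring
  · exact h2
  · convert h3 using 1; ring
  · exact h4
  · convert h5 using 1; ring
  · exact h6
  · convert h7 using 1; ring
  · exact h8

theorem base {L : Type} [Field L] (E : Subfield L) (hE : ∀ z, z ^ 2 ∈ E → z ∈ E)
    (M : Matrix (Fin 3) (Fin 3) L)
    (h : ∀ s s' t t', s ≠ s' → t ≠ t' → M s t * M s' t' - M s t' * M s' t ∈ E)
    (hdet : M.det ≠ 0) : ∀ i j, M i j ∈ E := by
  have h1 := adj_mem E M h
  have h2 := adj_mem E M.adjugate fun s s' t t' _ _ =>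
    sub_mem (mul_mem (h1 s t) (h1 s' t')) (mul_mem (h1 s t') (h1 s' t))
  have h3 : M.det ^ 2 ∈ E := by
    have e : M.adjugate.det = M.det ^ 2 := by
      rw [Matrix.det_adjugate]
      simp
    rw [← e, Matrix.det_fin_three]
    refine sub_mem (add_mem (add_mem (sub_mem (sub_mem ?_ ?_) ?_) ?_) ?_) ?_ <;>
      exact mul_mem (mul_mem (h1 _ _) (h1 _ _)) (h1 _ _)
  have h4 := hE _ h3
  have h5 : M.adjugate.adjugate = M.det • M := by
    rw [Matrix.adjugate_adjugate _ (by simp)]
    simp
  intro i j
  have h6 := h2 i j
  rw [h5, Matrix.smul_apply, smul_eq_mul] at h6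
  have h7 : M i j = (M.det)⁻¹ * (M.det * M i j) := by
    rw [← mul_assoc, inv_mul_cancel₀ hdet, one_mul]
  rw [h7]
  exact mul_mem (inv_mem h4) h6

theorem tri_adj {V : Type} {G : SimpleGraph V} {a b c : V} (hab : G.Adj a b) (hbc : G.Adj b c)
    (hac : G.Adj a c) : ∀ s s' : Fin 3, s ≠ s' → G.Adj (![a, b, c] s) (![a, b, c] s') := by
  intro s s' hss
  fin_cases s <;> fin_cases s' <;> simp at hss ⊢
  · exact hab
  · exact hac
  · exact hab.symm
  · exact hbc
  · exact hac.symm
  · exact hbc.symm

theorem tri_mem {V : Type} [DecidableEq V] {a b c i : V} (hi : i ∈ ({a, b, c} : Finset V)) :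
    ∃ s : Fin 3, i = ![a, b, c] s := by
  simp only [Finset.mem_insert, Finset.mem_singleton] at hi
  rcases hi with rfl | rfl | rfl
  · exact ⟨0, rfl⟩
  · exact ⟨1, rfl⟩
  · exact ⟨2, rfl⟩

theorem alg (hC : CONStm) : ALGStm := by
  intro V W L _ _ _ G H x hx E hE hmin A B hA
  induction hA generalizing B with
  | tri a b c hab hbc hac =>
    intro hB
    induction hB with
    | tri a' b' c' hab' hbc' hac' =>
      intro i hi k hk
      obtain ⟨s, rfl⟩ := tri_mem hi
      obtain ⟨t, rfl⟩ := tri_mem hk
      have hA' := tri_adj hab hbc hac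
      have hB' := tri_adj hab' hbc' hac'
      have hinjA : Function.Injective ![a, b, c] := by
        intro s s' hss
        by_contra hne
        exact (hA' s s' hne).ne hss
      have hinjB : Function.Injective ![a', b', c'] := by
        intro s s' hss
        by_contra hne
        exact (hB' s s' hne).ne hss
      exact base E hE (Matrix.of fun s t => x (![a, b, c] s) (![a', b', c'] t))
        (fun s s' t t' hs ht => hmin _ _ _ _ (hA' s s' hs) (hB' t t' ht))
        (hx.three _ _ hinjA hinjB) s t
    | ext B v p q hB hv hp hq hpq h1 h2 ih =>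
      intro i hi k hk
      rcases Finset.mem_insert.1 hk with rfl | hk
      · refine step hC (gen_swap hx) E G {a, b, c} (Built.tri a b c hab hbc hac) k p q hpq
          ?_ ?_ (fun i hi => ih i hi p hp) (fun i hi => ih i hi q hq) i hi
        · intro i j hij
          have h3 := hmin i j k p hij h1
          have e : x i k * x j p - x j k * x i p = x i k * x j p - x i p * x j k := by ring
          change x i k * x j p - x j k * x i p ∈ E
          rw [e]
          exact h3
        · intro i j hij
          have h3 := hmin i j k q hij h2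
          have e : x i k * x j q - x j k * x i q = x i k * x j q - x i q * x j k := by ring
          change x i k * x j q - x j k * x i q ∈ E
          rw [e]
          exact h3
      · exact ih i hi k hk
  | ext A v p q hA hv hp hq hpq h1 h2 ih =>
    intro hB i hi k hk
    rcases Finset.mem_insert.1 hi with rfl | hi
    · exact step hC hx E H B hB i p q hpq (fun k l hkl => hmin i p k l h1 hkl)
        (fun k l hkl => hmin i q k l h2 hkl) (fun k hk => ih B hB p hp k hk)
        (fun k hk => ih B hB q hq k hk) k hk
    · exact ih B hB i hi k hk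

end Pool.Agent.K1H89.KC
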