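import Pool.Agent.K1H80.KA.StmT

/-! Project KA, piece STEPLIN: propagation of zero rows. -/

set_option autoImplicit false

namespace Pool.Agent.K1H89.KA

open Pool.Agent.KA

theorem steplin : STEPLINStm := by
  intro V W L _ G H x hx hA B hB u hu a v y hav hvy hay hz k0 hk0
  have hne : ∀ i k, x i k ≠ 0 := hx.ne
  -- the first relation
  have hconst : ∀ k ∈ B, ∀ l ∈ B, u v k / x a k = u v l / x a l := by
    refine hB.con L (fun k => u v k / x a k) fun k hk l hl hkl => ?_
    have h1 := hu v a k hk l hl hav.symm hkl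
    rw [hz k hk, hz l hl] at h1
    show u v k / x a k = u v l / x a l
    rw [div_eq_div_iff (hne a k) (hne a l)]
    linear_combination h1
  obtain ⟨lam, hlam⟩ : ∃ lam : L, lam = u v k0 / x a k0 := ⟨_, rfl⟩
  have hlin : ∀ k ∈ B, u v k = lam * x a k := by
    intro k hk
    rw [hlam, ← hconst k hk k0 hk0, div_mul_cancel₀ _ (hne a k)]
  obtain ⟨m, c, hc, hcB, hcH⟩ := hB.cyc
  have hrel : ∀ t, lam * ((x a (c t) * x y (c (t + 1)) - x a (c (t + 1)) * x y (c t)) /
      (x v (c t) * x v (c (t + 1)))) =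
      u y (c t) / x v (c t) - u y (c (t + 1)) / x v (c (t + 1)) := by
    intro t
    have h1 := hu v y (c t) (hcB t) (c (t + 1)) (hcB (t + 1)) hvy (hcH t)
    rw [hlin _ (hcB t), hlin _ (hcB (t + 1))] at h1
    have h2 := hne v (c t)
    have h3 := hne v (c (t + 1))
    field_simp
    linear_combination h1
  have hsum : lam * ∑ t, (x a (c t) * x y (c (t + 1)) - x a (c (t + 1)) * x y (c t)) /
      (x v (c t) * x v (c (t + 1))) = 0 := by
    rw [Finset.mul_sum, Finset.sum_congr rfl fun t _ => hrel t, Finset.sum_sub_distrib]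
    have h4 : ∑ t, u y (c (t + 1)) / x v (c (t + 1)) = ∑ t, u y (c t) / x v (c t) :=
      Equiv.sum_comp (Equiv.addRight (1 : Fin (m + 3))) fun t => u y (c t) / x v (c t)
    rw [h4, sub_self]
  rcases mul_eq_zero.1 hsum with h | h
  · rw [hlin k0 hk0, h, zero_mul]
  · exact absurd h (hA m c hc a y v hay hav.ne hvy.ne.symm)

end Pool.Agent.K1H89.KA
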